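import Pool.Agent.ACK.StmtsD

/-!
# Row ILB of squad ACK (helper27): symmetry, rotation, reversal, isolated parts
-/

set_option autoImplicit false

namespace Pool.Agent.ACK.H27

open Pool.Agent.ACK Pool.Agent.ACK.D

theorem fl_swap (l : List ℕ) (x y : ℕ) : fl l y x = fl l x y := by
  unfold fl
  apply List.filter_congr
  intro z _
  simp only [or_comm]

theorem fl_append (a b : List ℕ) (x y : ℕ) : fl (a ++ b) x y = fl a x y ++ fl b x y :=
  List.filter_append a b

theorem fl_reverse (l : List ℕ) (x y : ℕ) : fl l.reverse x y = (fl l x y).reverse :=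
  List.filter_reverse

theorem swap4 (p q : List ℕ) (x y : ℕ) (h : p ++ q = [x, y, x, y] ∨ p ++ q = [y, x, y, x]) :
    q ++ p = [x, y, x, y] ∨ q ++ p = [y, x, y, x] := by
  rcases p with _ | ⟨a1, _ | ⟨a2, _ | ⟨a3, _ | ⟨a4, _ | ⟨a5, p⟩⟩⟩⟩⟩
  · rw [List.append_nil]
    exact h
  · rcases h with h | h
    · rw [List.cons_append, List.nil_append, List.cons.injEq] at h
      obtain ⟨rfl, rfl⟩ := h
      exact Or.inr rfl
    · rw [List.cons_append, List.nil_append, List.cons.injEq] at h
      obtain ⟨rfl, rfl⟩ := h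
      exact Or.inl rfl
  · rcases h with h | h
    · simp only [List.cons_append, List.nil_append, List.cons.injEq] at h
      obtain ⟨rfl, rfl, rfl⟩ := h
      exact Or.inl rfl
    · simp only [List.cons_append, List.nil_append, List.cons.injEq] at h
      obtain ⟨rfl, rfl, rfl⟩ := h
      exact Or.inr rfl
  · rcases h with h | h
    · simp only [List.cons_append, List.nil_append, List.cons.injEq] at h
      obtain ⟨rfl, rfl, h3, rfl⟩ := h
      rw [h3]
      exact Or.inr rfl
    · simp only [List.cons_append, List.nil_append, List.cons.injEq] at h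
      obtain ⟨rfl, rfl, h3, rfl⟩ := h
      rw [h3]
      exact Or.inl rfl
  · rcases h with h | h
    · simp only [List.cons_append, List.nil_append, List.cons.injEq] at h
      obtain ⟨rfl, rfl, h3, h4, rfl⟩ := h
      rw [h3, h4]
      exact Or.inl rfl
    · simp only [List.cons_append, List.nil_append, List.cons.injEq] at h
      obtain ⟨rfl, rfl, h3, h4, rfl⟩ := h
      rw [h3, h4]
      exact Or.inr rfl
  · rcases h with h | h
    · simp at h
    · simp at h

theorem nosplit (p q : List ℕ) (x z : ℕ) (hp : ∀ u ∈ p, u = x) (hq : ∀ u ∈ q, u = z)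
    (hxz : x ≠ z) : ¬ (p ++ q = [x, z, x, z] ∨ p ++ q = [z, x, z, x]) := by
  rintro (h | h)
  · rcases p with _ | ⟨a1, _ | ⟨a2, p⟩⟩
    · rw [List.nil_append] at h
      exact hxz (hq x (by rw [h]; simp))
    · rw [List.cons_append, List.nil_append, List.cons.injEq] at h
      exact hxz (hq x (by rw [h.2]; simp))
    · simp only [List.cons_append, List.cons.injEq] at h
      exact hxz ((hp a2 (by simp)).symm.trans h.2.1)
  · rcases p with _ | ⟨a1, p⟩
    · rw [List.nil_append] at h
      exact hxz (hq x (by rw [h]; simp))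
    · rw [List.cons_append, List.cons.injEq] at h
      exact hxz ((hp a1 (by simp)).symm.trans h.1)

theorem il_comm (a b : List ℕ) (x y : ℕ) (h : Il (a ++ b) x y) : Il (b ++ a) x y := by
  obtain ⟨h1, h2⟩ := h
  refine ⟨h1, ?_⟩
  rw [fl_append] at h2 ⊢
  exact swap4 _ _ x y h2

theorem il_rev (l : List ℕ) (x y : ℕ) (h : Il l x y) : Il l.reverse x y := by
  obtain ⟨h1, h2⟩ := h
  refine ⟨h1, ?_⟩
  rw [fl_reverse]
  rcases h2 with h2 | h2
  · rw [h2]
    exact Or.inr rfl
  · rw [h2]
    exact Or.inl rfl

theorem ilb : IlbStmt := by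
  refine ⟨?_, fun a b x y => ⟨il_comm a b x y, il_comm b a x y⟩, ?_, ?_, ?_⟩
  · intro l x y h
    obtain ⟨h1, h2⟩ := h
    refine ⟨h1.symm, ?_⟩
    rw [fl_swap]
    exact h2.symm
  · intro l k x y
    rw [List.rotate_eq_drop_append_take_mod]
    constructor
    · intro h
      have h1 := il_comm _ _ x y h
      rwa [List.take_append_drop] at h1
    · intro h
      apply il_comm
      rwa [List.take_append_drop]
  · intro l x y
    constructor
    · intro h
      have h1 := il_rev _ x y h
      rwa [List.reverse_reverse] at h1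
    · exact il_rev l x y
  · intro a b x z hx hz h
    obtain ⟨h1, h2⟩ := h
    rw [fl_append] at h2
    refine nosplit _ _ x z ?_ ?_ h1 h2
    · intro u hu
      obtain ⟨h3, h4⟩ := List.mem_filter.1 hu
      rcases of_decide_eq_true h4 with h5 | h5
      · exact h5
      · exact absurd (h5 ▸ h3) hz
    · intro u hu
      obtain ⟨h3, h4⟩ := List.mem_filter.1 hu
      rcases of_decide_eq_true h4 with h5 | h5
      · exact absurd (h5 ▸ h3) hx
      · exact h5

end Pool.Agent.ACK.H27
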