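import Pool.Agent.ACK.StmtsB

/-!
# ACK, row PDL: duality of the black and the white circles
-/

set_option autoImplicit false

namespace Pool.Agent.ACK.H27

open Pool.Agent.ACK.B

theorem pdl (hSUM : SumStmt) (hRKA : RkaStmt) (hRKB : RkbStmt) : PdlStmt := by
  intro c w s hc hw hnc S hS1 hS2
  have : NeZero (2 * c) := ⟨by omega⟩
  have hle : UB w ≤ VB w s := by
    intro T hT
    exact ⟨hSUM (2 * c) w s hw T hT, hSUM (2 * c) w (op s) hw T hT⟩
  have h1 := hRKA c w hc hw
  have h2 := hRKB (2 * c) w s hw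
  have h3 : Module.finrank (ZMod 2) (UB w) = Module.finrank (ZMod 2) (VB w s) := by
    omega
  have h4 : UB w = VB w s := Submodule.eq_of_le_of_finrank_eq hle h3
  have h5 : S ∈ VB w s := ⟨hS1, hS2⟩
  rw [← h4] at h5
  exact h5

end Pool.Agent.ACK.H27
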