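import Pool.Agent.ACK.StmtsA

/-!
# Row ROT of squad ACK (helper27): rotation invariance
-/

set_option autoImplicit false

namespace Pool.Agent.ACK.H27

open Pool.Agent.ACK

theorem wd_rotate (c : ℕ) (hc : 1 ≤ c) (l : List ℕ) (hl : l.length = 2 * c) (k : ℕ)
    (i : ZMod (2 * c)) : wd c (l.rotate k) i = wd c l (i + (k : ZMod (2 * c))) := by
  have : NeZero (2 * c) := ⟨by omega⟩
  have h1 : i.val < (l.rotate k).length := by
    rw [List.length_rotate, hl]
    exact ZMod.val_lt i
  have h2 : (i + (k : ZMod (2 * c))).val = (i.val + k) % l.length := by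
    rw [ZMod.val_add, ZMod.val_natCast, Nat.add_mod_mod, hl]
  have h3 : (i + (k : ZMod (2 * c))).val < l.length := by
    rw [hl]
    exact ZMod.val_lt _
  unfold wd
  rw [List.getD_eq_getElem _ _ h1, List.getD_eq_getElem _ _ h3, List.getElem_rotate]
  simp only [h2]

theorem cr_shift {n : ℕ} (w w' : ZMod n → ℕ) (k : ZMod n) (h : ∀ i, w' i = w (i + k))
    (s : ℕ → Bool) (p q : ZMod n) : CR w' s p q ↔ CR w s (p + k) (q + k) := by
  constructor
  · rintro ⟨i, j, hij, hw, h1⟩
    refine ⟨i + k, j + k, fun h2 => hij (add_right_cancel h2), by rw [← h, ← h, hw], ?_⟩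
    rw [← h]
    rcases h1 with ⟨h1, h2, h3⟩ | ⟨h1, h2⟩
    · refine Or.inl ⟨h1, ?_, ?_⟩
      · rw [h2]; ring
      · rw [h3]
    · refine Or.inr ⟨h1, ?_⟩
      rcases h2 with ⟨h2, h3⟩ | ⟨h2, h3⟩
      · refine Or.inl ⟨?_, ?_⟩
        · rw [h2]; ring
        · rw [h3]; ring
      · exact Or.inr ⟨by rw [h2], by rw [h3]⟩
  · rintro ⟨i, j, hij, hw, h1⟩
    have ei : w' (i - k) = w i := by rw [h, sub_add_cancel]
    have ej : w' (j - k) = w j := by rw [h, sub_add_cancel]
    refine ⟨i - k, j - k, fun h2 => hij (sub_left_injective h2), by rw [ei, ej, hw], ?_⟩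
    rw [ei]
    rcases h1 with ⟨h1, h2, h3⟩ | ⟨h1, h2⟩
    · refine Or.inl ⟨h1, ?_, ?_⟩
      · linear_combination h2
      · linear_combination h3
    · refine Or.inr ⟨h1, ?_⟩
      rcases h2 with ⟨h2, h3⟩ | ⟨h2, h3⟩
      · refine Or.inl ⟨?_, ?_⟩
        · linear_combination h2
        · linear_combination h3
      · refine Or.inr ⟨?_, ?_⟩
        · linear_combination h2
        · linear_combination h3

theorem nc_shift {n : ℕ} (w w' : ZMod n → ℕ) (k : ZMod n) (h : ∀ i, w' i = w (i + k))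
    (s : ℕ → Bool) : nc w' s = nc w s := by
  unfold nc
  exact Nat.card_congr (Quot.congr (Equiv.addRight k) fun p q => cr_shift w w' k h s p q)

theorem rot : RotStmt := by
  intro c l l' hc hl hr
  obtain ⟨k, hk⟩ := hr
  have h2 : ∀ s, nc (wd c l') s = nc (wd c l) s := by
    intro s
    rw [← hk]
    exact nc_shift _ _ _ (wd_rotate c hc l hl k) s
  refine ⟨?_, h2, ?_⟩
  · rw [← hk, List.rotate_eq_drop_append_take_mod]
    have h3 := Mv.rot (l.take (k % l.length)) (l.drop (k % l.length))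
    rw [List.take_append_drop] at h3
    exact Quot.sound h3
  · intro hK
    have hperm : l.Perm l' := List.IsRotated.perm ⟨k, hk⟩
    refine ⟨?_, ?_, ?_, ?_⟩
    · rw [← hperm.length_eq, hl]
    · intro x hx
      rw [← hperm.count_eq x]
      exact hK.gw x (hperm.mem_iff.2 hx)
    · obtain ⟨s, hs⟩ := hK.pl
      exact ⟨s, by rw [h2, h2, hs]⟩
    · intro m a b hab ha hb
      refine hK.pr (k + m) a b ?_ ha hb
      rw [← List.rotate_rotate, hk, hab]

end Pool.Agent.ACK.H27
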